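import Pool.Agent.Helper52.CKC.OmC
import Pool.Agent.Helper52.CK.Bump
import Pool.Agent.Helper96.CK.ExpC
set_option autoImplicit false
open Complex MeasureTheory Metric Set
open scoped Real ComplexConjugate ContDiff

/-! Project CKC: the window hypothesis of the exponent lemma, complex exponents. -/

namespace Pool.Agent.Helper52.CKC

open Pool.Agent.Helper39.Area Pool.Agent.Helper52.EK Pool.Agent.Helper52.CK
open Pool.Agent.Helper68.EKC Pool.Agent.Helper97.CKC Pool.Agent.Helper9.EK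

/-- continuity of the term of the multiplier in the target -/
def MContC (κ dl : ℝ) (u : ℂ) : Prop :=
  ∀ (a b : ℝ), 0 < a → a < b → b ≤ 1 / 4 → ∀ (β : ℂ → ℂ) (R : ℝ), ExtR β R →
    ∀ (W0 : ℂ → ℝ) (Mh : ℂ → ℂ) (Mb : ℝ), Cutf b W0 →
      ContinuousOn Mh {z | 0 < ‖z‖ ∧ ‖z‖ < 1} → (∀ z, ‖Mh z‖ ≤ Mb) →
      ContinuousOn (fun p : ℝ × ℝ => MC κ dl u W0 Mh β p.1 p.2) (Icc a b ×ˢ Icc (-(1 / 2)) (1 / 2))

/-- truncation of a function continuous on a rectangle -/
theorem trunc {a b : ℝ} (hab : a ≤ b) {F : ℝ → ℝ → ℝ}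
    (h : ContinuousOn (fun p : ℝ × ℝ => F p.1 p.2) (Icc a b ×ˢ Icc (-(1 / 2)) (1 / 2))) :
    ∃ H : ℝ → ℝ → ℝ, Continuous (fun q : ℝ × ℝ => H q.1 q.2) ∧
      ∀ x θ, a ≤ x → x ≤ b → |θ| ≤ 1 / 2 → H x θ = F x θ := by
  refine ⟨fun x θ => F (max a (min x b)) (max (-(1 / 2)) (min θ (1 / 2))), ?_, ?_⟩
  · have h1 : Continuous (fun q : ℝ × ℝ =>
        (max a (min q.1 b), max (-(1 / 2)) (min q.2 (1 / 2)))) := by
      fun_prop
    have h2 : ∀ q : ℝ × ℝ, (max a (min q.1 b), max (-(1 / 2)) (min q.2 (1 / 2))) ∈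
        Icc a b ×ˢ Icc (-(1 / 2) : ℝ) (1 / 2) := by
      intro q
      refine Set.mk_mem_prod ?_ ?_
      · exact ⟨le_max_left _ _, max_le hab (min_le_right _ _)⟩
      · exact ⟨le_max_left _ _, max_le (by norm_num) (min_le_right _ _)⟩
    exact h.comp_continuous h1 h2
  · intro x θ hx hx2 hθ
    obtain ⟨h1, h2⟩ := abs_le.1 hθ
    simp only
    rw [min_eq_left hx2, max_eq_right hx, min_eq_left h2, max_eq_right h1]

section JJs

variable {κ dl n : ℝ} {u : ℂ} {w : ℝ → ℝ} {v : ℝ → ℝ} {L : ℂ → ℂ}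

theorem two_pi_mmC (l : ℝ) : ∫ θ in (-π)..π, v θ * FC κ u L (Real.exp (-l)) θ =
    2 * π * mmC κ u v L l := by
  have hpi := Real.pi_pos
  unfold mmC
  field_simp

theorem JC_eq (hL : ContinuousOn L (ball 0 1)) (cv : Continuous v) (v0 : ∀ θ, 0 ≤ v θ)
    (hv : 0 < v 0) (hn : 0 ≤ n) :
    JC κ u (omw w (κ - 2 + dl)) v (Real.exp (-(2 * n + 2))) (Real.exp (-(n + 2))) L =
      2 * π * ∫ l in n..(2 * n), Real.exp (GGC κ dl u v L l) * w l := by
  unfold JC
  have e1 : (fun x θ => omw w (κ - 2 + dl) x * v θ * FC κ u L x θ) =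
      fun x θ => omw w (κ - 2 + dl) x * (v θ * FC κ u L x θ) := by
    funext x θ
    ring
  rw [e1, RR_omw hn, ← intervalIntegral.integral_const_mul]
  refine intervalIntegral.integral_congr fun l _ => ?_
  rw [two_pi_mmC, exp_GGC (mmC_pos hL cv v0 hv _)]
  have e2 : κ - 2 + dl + 1 = κ - 1 + dl := by ring
  rw [e2]
  ring

theorem JDC_eq (hL : ContinuousOn L (ball 0 1)) (cv : Continuous v) (v0 : ∀ θ, 0 ≤ v θ)
    (hv : 0 < v 0) (hn : 0 ≤ n) :
    RR (Real.exp (-(2 * n + 2))) (Real.exp (-(n + 2))) (fun x θ =>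
      |(κ - 2 + dl) * omw w (κ - 2 + dl) x - x * omw' w (κ - 2 + dl) x| * v θ * FC κ u L x θ) =
      2 * π * ∫ l in n..(2 * n), Real.exp (GGC κ dl u v L l) * |deriv w l| := by
  have e1 : (fun x θ => |(κ - 2 + dl) * omw w (κ - 2 + dl) x - x * omw' w (κ - 2 + dl) x| *
      v θ * FC κ u L x θ) = fun x θ => |(κ - 2 + dl) * omw w (κ - 2 + dl) x -
      x * omw' w (κ - 2 + dl) x| * (v θ * FC κ u L x θ) := by
    funext x θ
    ring
  rw [e1, RR_omw_abs hn, ← intervalIntegral.integral_const_mul]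
  refine intervalIntegral.integral_congr fun l _ => ?_
  rw [two_pi_mmC, exp_GGC (mmC_pos hL cv v0 hv _)]
  have e2 : κ - 2 + dl + 1 = κ - 1 + dl := by ring
  rw [e2]
  ring

/-- the angular term is dominated by rotations -/
theorem JUC_le {om om' v' : ℝ → ℝ} {a b : ℝ} (hL : ContinuousOn L (ball 0 1))
    (hW : Wt om om' v v' a b) {K : ℕ} {Cu : ℝ} (hCu : 0 ≤ Cu)
    (cov : ∀ θ, |v' θ| ≤ Cu * ∑ j ∈ Finset.range K, v (θ + 2 * π * j / K)) :
    RR a b (fun x θ => om x * |v' θ| * FC κ u L x θ) ≤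
      Cu * ∑ j ∈ Finset.range K, JC κ u om v a b (rotL L (-(2 * π * j / K))) := by
  have co : Continuous om := continuous_iff_continuousAt.2 fun x => (hW.dom x).continuousAt
  have cv : Continuous v := continuous_iff_continuousAt.2 fun x => (hW.du x).continuousAt
  have cF := FC_cont κ u hL hW.a0
  have com : Continuous (fun q : ℝ × ℝ => om (max a q.1)) := by fun_prop
  have h1 : RR a b (fun x θ => om x * |v' θ| * FC κ u L x θ) ≤ RR a b (fun x θ =>
      Cu * ∑ j ∈ Finset.range K, om x * v (θ + 2 * π * j / K) * FC κ u L x θ) := by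
    refine RR_mono hW.ab.le ?_ ?_ ?_
    · have : Continuous (fun q : ℝ × ℝ => |v' q.2|) := (hW.cu.comp continuous_snd).abs
      exact (com.mul this).mul cF
    · refine continuous_const.mul (continuous_finsetSum _ fun j _ => ?_)
      have : Continuous (fun q : ℝ × ℝ => v (q.2 + 2 * π * j / K)) := by fun_prop
      exact (com.mul this).mul cF
    · intro x θ hx _
      have hF := (FC_pos κ u L x θ).le
      have hc := cov θ
      have h2 : om x * FC κ u L x θ * |v' θ| ≤ om x * FC κ u L x θ *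
          (Cu * ∑ j ∈ Finset.range K, v (θ + 2 * π * j / K)) :=
        mul_le_mul_of_nonneg_left hc (mul_nonneg (hW.om0 x) hF)
      have e : Cu * ∑ j ∈ Finset.range K, om x * v (θ + 2 * π * j / K) * FC κ u L x θ =
          om x * FC κ u L x θ * (Cu * ∑ j ∈ Finset.range K, v (θ + 2 * π * j / K)) := by
        rw [Finset.mul_sum, Finset.mul_sum, Finset.mul_sum]
        refine Finset.sum_congr rfl fun j _ => ?_
        ring
      rw [e]
      calc om x * |v' θ| * FC κ u L x θ = om x * FC κ u L x θ * |v' θ| := by ring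
        _ ≤ _ := h2
  rw [RR_sum hW.ab.le K Cu (F := fun j x θ => om x * v (θ + 2 * π * j / K) * FC κ u L x θ)] at h1
  · refine h1.trans (mul_le_mul_of_nonneg_left (Finset.sum_le_sum fun j _ => ?_) hCu)
    refine le_of_eq ?_
    unfold JC RR
    refine intervalIntegral.integral_congr fun x _ => ?_
    simp only
    have e1 : ∀ θ, om x * v (θ + 2 * π * j / K) * FC κ u L x θ =
        om x * (v (θ + 2 * π * j / K) * FC κ u L x θ) := fun θ => by ring
    have e2 : ∀ θ, om x * v θ * FC κ u (rotL L (-(2 * π * j / K))) x θ =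
        om x * (v θ * FC κ u (rotL L (-(2 * π * j / K))) x θ) := fun θ => by ring
    simp only [e1, e2]
    rw [intervalIntegral.integral_const_mul, intervalIntegral.integral_const_mul,
      rot_intC hW.up]
  · intro j
    have : Continuous (fun q : ℝ × ℝ => v (q.2 + 2 * π * j / K)) := by fun_prop
    exact (com.mul this).mul cF

end JJs

theorem cont_PC (κ : ℝ) (u : ℂ) (q : ℝ) {w : ℝ → ℝ} (cw : Continuous w) {v : ℝ → ℝ}
    (cv : Continuous v) {L : ℂ → ℂ} (hL : ContinuousOn L (ball 0 1)) {Mf : ℝ → ℝ → ℝ}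
    (cM : Continuous (fun q : ℝ × ℝ => Mf q.1 q.2)) :
    Continuous (fun l => w l * Real.exp (-(q * (l + 2))) *
      ∫ θ in (-π)..π, v θ * FC κ u L (Real.exp (-(l + 2))) θ * Mf (Real.exp (-(l + 2))) θ) := by
  have h1 := FC_comp_cont κ u hL (g := fun q : ℝ × ℝ => Real.exp (-(q.1 + 2)))
    (k := fun q => q.2) (by fun_prop) (by fun_prop) (fun q => Real.exp_pos _)
  have h2 : Continuous (fun q : ℝ × ℝ => (Real.exp (-(q.1 + 2)), q.2)) := by fun_prop
  have h3 : Continuous (fun q : ℝ × ℝ => Mf (Real.exp (-(q.1 + 2))) q.2) := cM.comp h2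
  have h4 : Continuous (fun q : ℝ × ℝ => v q.2) := cv.comp continuous_snd
  have h5 : Continuous (fun l => ∫ θ in (-π)..π, v θ * FC κ u L (Real.exp (-(l + 2))) θ *
      Mf (Real.exp (-(l + 2))) θ) :=
    intervalIntegral.continuous_parametric_intervalIntegral_of_continuous'
      (f := fun l θ => v θ * FC κ u L (Real.exp (-(l + 2))) θ * Mf (Real.exp (-(l + 2))) θ)
      ((h4.mul h1).mul h3) _ _
  have h6 : Continuous (fun l : ℝ => Real.exp (-(q * (l + 2)))) := by fun_prop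
  exact (cw.mul h6).mul h5

theorem RMC_eq {κ dl n : ℝ} {u : ℂ} (hn : 0 ≤ n) {w v : ℝ → ℝ} {L : ℂ → ℂ}
    {Mf Mg : ℝ → ℝ → ℝ} {s : ℝ} (vs : ∀ θ ∈ Icc (-π) π, v θ ≠ 0 → |θ| ≤ s)
    (he : ∀ x θ, Real.exp (-(2 * n + 2)) ≤ x → x ≤ Real.exp (-(n + 2)) → |θ| ≤ s →
      Mf x θ = Mg x θ) :
    RR (Real.exp (-(2 * n + 2))) (Real.exp (-(n + 2)))
      (fun x θ => omw w (κ - 2 + dl) x * v θ * FC κ u L x θ * Mg x θ) =
      ∫ l in n..(2 * n), w l * Real.exp (-((κ - 1 + dl) * (l + 2))) *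
        ∫ θ in (-π)..π, v θ * FC κ u L (Real.exp (-(l + 2))) θ * Mf (Real.exp (-(l + 2))) θ := by
  have hpi := Real.pi_pos
  have hab : Real.exp (-(2 * n + 2)) ≤ Real.exp (-(n + 2)) := Real.exp_le_exp.2 (by linarith)
  have e1 : RR (Real.exp (-(2 * n + 2))) (Real.exp (-(n + 2)))
      (fun x θ => omw w (κ - 2 + dl) x * v θ * FC κ u L x θ * Mg x θ) =
      RR (Real.exp (-(2 * n + 2))) (Real.exp (-(n + 2))) (fun x θ => omw w (κ - 2 + dl) x *
        (v θ * FC κ u L x θ * Mf x θ)) := by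
    unfold RR
    refine intervalIntegral.integral_congr fun x hx => ?_
    rw [uIcc_of_le hab] at hx
    refine intervalIntegral.integral_congr fun θ hθ => ?_
    rw [uIcc_of_le (by linarith : -π ≤ π)] at hθ
    simp only
    by_cases hv : v θ = 0
    · simp [hv]
    · rw [he x θ hx.1 hx.2 (vs θ hθ hv)]
      ring
  rw [e1, RR_omw hn]
  refine intervalIntegral.integral_congr fun l _ => ?_
  have e2 : κ - 2 + dl + 1 = κ - 1 + dl := by ring
  rw [e2]

/-- the index type of the family -/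
def Fam : Type := {q : (ℂ → ℂ) × (ℂ → ℂ) // ∃ R : ℝ, ExtR q.1 R ∧ IsLog q.1 q.2}

/-- the window hypothesis -/
theorem windowC {κ dl Mb : ℝ} {u : ℂ} (hκ : 1 ≤ κ) (hMb : 0 ≤ Mb) {G : ℂ → ℂ}
    {Mh : (ℂ → ℂ) → ℂ → ℂ}
    (hG : ∀ (β : ℂ → ℂ) (R : ℝ), ExtR β R → ContinuousOn (wf G β) {z | 0 < ‖z‖ ∧ ‖z‖ < 1})
    (hMc : ∀ (β : ℂ → ℂ) (R : ℝ), ExtR β R → ContinuousOn (Mh β) {z | 0 < ‖z‖ ∧ ‖z‖ < 1})
    (hM : ∀ β z, ‖Mh β z‖ ≤ Mb) (near : NearC κ u) (mint : MIntC κ dl u)
    (mcont : MContC κ dl u) (ent : EntC) {C₀ C ε s : ℝ} (hC₀ : 0 ≤ C₀) (hε : 0 < ε)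
    (hε1 : ε ≤ 1) (hs0 : 0 < s) (hs1 : s ≤ 1 / 2) (hC : 0 ≤ C)
    (pt : ∀ n : ℝ, 2 ≤ n →
      ∃ W0 : ℂ → ℝ, Cutf (Real.exp (-n)) W0 ∧ ∀ (β L : ℂ → ℂ) (R : ℝ), ExtR β R → IsLog β L →
        ∀ x θ : ℝ, 0 < x → x ≤ Real.exp (-n) → |θ| ≤ s →
          Kf (wf G β) (Complex.exp (θ * I)) (-1) (-x) ≤
            κ * (-Real.log (1 - Real.exp (-2 * x)) + (conj u * L (ep (-x) θ)).re) +
            MC κ dl u W0 (Mh β) β x θ + C + (dl + ε) * (-Real.log x) +
            C₀ * (-Real.log x - n)) :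
    Pool.Agent.Helper96.CK.WindowAt (fun i : Fam => GGC κ dl u (bu s) i.1.2)
      (Mb / (2 * κ)) (C₀ + 1) ε := by
  have hpi := Real.pi_pos
  obtain ⟨C1, hC1, MI⟩ := mint Mb hMb
  obtain ⟨CE, EN⟩ := ent
  obtain ⟨K, Cu, hK, hCu, -, cov⟩ := bu_cover hs0 hs1
  obtain ⟨th, hth⟩ : ∃ th, th = Mb / (2 * κ) := ⟨_, rfl⟩
  have hth0 : 0 ≤ th := by rw [hth]; positivity
  obtain ⟨Q, hQ⟩ : ∃ Q : ℝ, Q = C1 + C1 * (Cu * (K * 2)) := ⟨_, rfl⟩
  have hQ0 : 0 ≤ Q := by rw [hQ]; positivity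
  obtain ⟨Cf, hCf⟩ : ∃ Cf : ℝ, Cf = |CE| + C + 2 * ε + Q + th * (2 + C1) := ⟨_, rfl⟩
  have hCf0 : 0 ≤ Cf := by rw [hCf]; positivity
  refine ⟨Cf, hCf0, ?_⟩
  rw [← hth]
  intro n hn w hw hwn hw0 hwp η hη
  obtain ⟨a, ha⟩ : ∃ a, a = Real.exp (-(2 * n + 2)) := ⟨_, rfl⟩
  obtain ⟨b, hb⟩ : ∃ b, b = Real.exp (-(n + 2)) := ⟨_, rfl⟩
  have WT : Wt (omw w (κ - 2 + dl)) (omw' w (κ - 2 + dl)) (bu s) (bu' s) a b := by
    rw [ha, hb]
    exact omw_Wt hn hw hwn hw0 (bu_deriv s) (bu'_cont s) (bu_nonneg s) (bu_le_one hs0 hs1)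
      (bu_per s)
  have hn0 : 0 ≤ n := by linarith
  have hu0 : 0 < bu s 0 := bu_pos_zero hs0 hs1
  have cu : Continuous (bu s) := bu_cont s
  obtain ⟨η', hη'⟩ : ∃ η' : ℝ, η' = min (1 / 2) (min η (η / (1 + C1))) := ⟨_, rfl⟩
  have hη'0 : 0 < η' := by rw [hη']; positivity
  have hη'1 : η' ≤ 1 / 2 := by rw [hη']; exact min_le_left _ _
  have hη'2 : η' ≤ η := by rw [hη']; exact (min_le_right _ _).trans (min_le_left _ _)
  have hη'3 : C1 * η' ≤ η := by
    have h1 : η' ≤ η / (1 + C1) := by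
      rw [hη']; exact (min_le_right _ _).trans (min_le_right _ _)
    rw [le_div_iff₀ (by positivity)] at h1
    nlinarith
  obtain ⟨β, L, R, hβ, hL, hmax, hcrit⟩ :=
    near _ _ _ _ a b WT (omw_exists_pos hwp) ⟨0, hu0⟩ η' hη'0
  have hLc := hL.cont
  obtain ⟨W0, hW0, PT⟩ := pt (n + 2) (by linarith)
  rw [← hb] at hW0
  have usupp : ∀ θ ∈ Icc (-π) π, bu s θ ≠ 0 → |θ| ≤ s := fun θ hθ h => bu_supp hs0 hs1 hθ h
  have MIβ := MI _ _ _ _ a b WT (fun θ hθ h => (usupp θ hθ h).trans hs1) β L R η' hβ hL hη'0.le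
    hcrit W0 (Mh β) hW0 (hMc β R hβ) (hM β)
  have cMM := mcont a b WT.a0 WT.ab WT.b1 β R hβ W0 (Mh β) Mb hW0 (hMc β R hβ) (hM β)
  obtain ⟨Mf, cMf, Mf_eq⟩ := trunc WT.ab.le cMM
  -- the level functions
  obtain ⟨g, hg⟩ : ∃ g : ℝ → ℝ, g = GGC κ dl u (bu s) L := ⟨_, rfl⟩
  have cg : Continuous g := by rw [hg]; exact GGC_cont hLc cu (bu_nonneg s) hu0
  have cw : Continuous w := hw.continuous
  have cdw : Continuous (deriv w) := hw.continuous_deriv (by norm_num)
  have ceg : Continuous fun l => Real.exp (g l) := Real.continuous_exp.comp cg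
  obtain ⟨J, hJ⟩ : ∃ J, J = ∫ l in n..(2 * n), Real.exp (g l) * w l := ⟨_, rfl⟩
  obtain ⟨D, hD⟩ : ∃ D, D = ∫ l in n..(2 * n), Real.exp (g l) * |deriv w l| := ⟨_, rfl⟩
  have hn2 : n ≤ 2 * n := by linarith
  have hJ0 : 0 ≤ J := by
    rw [hJ]
    exact intervalIntegral.integral_nonneg hn2 fun l _ =>
      mul_nonneg (Real.exp_pos _).le (hwn l)
  have hD0 : 0 ≤ D := by
    rw [hD]
    exact intervalIntegral.integral_nonneg hn2 fun l _ =>
      mul_nonneg (Real.exp_pos _).le (abs_nonneg _)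
  have JJβ : JC κ u (omw w (κ - 2 + dl)) (bu s) a b L = 2 * π * J := by
    rw [ha, hb, JC_eq hLc cu (bu_nonneg s) hu0 hn0, hJ, hg]
  have JDβ := JDC_eq (κ := κ) (dl := dl) (u := u) (w := w) hLc cu (bu_nonneg s) hu0 hn0
  rw [← ha, ← hb, ← hg, ← hD] at JDβ
  refine ⟨⟨(β, L), R, hβ, hL⟩, ?_, ?_⟩
  · -- near maximal
    rintro ⟨⟨γ, Lγ⟩, Rγ, hγ, hLγ⟩
    have h1 := hmax γ Lγ hγ.toExt hLγ
    rw [JJβ, ha, hb, JC_eq (IsLog.cont hLγ) cu (bu_nonneg s) hu0 hn0] at h1
    have h2 : 0 ≤ ∫ l in n..(2 * n), Real.exp (GGC κ dl u (bu s) Lγ l) * w l :=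
      intervalIntegral.integral_nonneg hn2 fun l _ => mul_nonneg (Real.exp_pos _).le (hwn l)
    have h3 : (1 - η') * ∫ l in n..(2 * n), Real.exp (GGC κ dl u (bu s) Lγ l) * w l ≤ J := by
      have : 2 * π * ((1 - η') * ∫ l in n..(2 * n), Real.exp (GGC κ dl u (bu s) Lγ l) * w l) ≤
          2 * π * J := by
        calc _ = (1 - η') * (2 * π * ∫ l in n..(2 * n),
              Real.exp (GGC κ dl u (bu s) Lγ l) * w l) := by
              ring
          _ ≤ _ := h1
      exact le_of_mul_le_mul_left this (by positivity)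
    have h5 : J = ∫ l in n..(2 * n), Real.exp (GGC κ dl u (bu s) L l) * w l := by rw [hJ, hg]
    rw [h5] at h3
    exact le_trans (mul_le_mul_of_nonneg_right (by linarith) h2) h3
  · -- the main inequality
    have goal' : ∫ l in n..(2 * n), Real.exp (g l) * w l * g l ≤
        (∫ l in n..(2 * n), Real.exp (g l) * w l * (Cf + ε * n + (C₀ + 1) * (l - n))) +
          (th * n + Cf) * (∫ l in n..(2 * n), Real.exp (g l) * |deriv w l|) + η := ?_
    · rw [hg] at goal'
      exact goal'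
    rw [← hD]
    -- angular term
    have JU := JUC_le (κ := κ) (u := u) hLc WT hCu.le cov
    have JU2 : RR a b (fun x θ => omw w (κ - 2 + dl) x * |bu' s θ| * FC κ u L x θ) ≤
        Cu * (K * 2) * (2 * π * J) := by
      refine JU.trans ?_
      have h1 : ∀ j ∈ Finset.range K, JC κ u (omw w (κ - 2 + dl)) (bu s) a b
          (rotL L (-(2 * π * j / K))) ≤ 2 * (2 * π * J) := by
        intro j _
        have hLr := rot_IsLog hL (-(2 * π * j / K))
        have h2 := hmax _ _ (rot_ExtR hβ (-(2 * π * j / K))).toExt hLr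
        rw [JJβ] at h2
        have h3 : 0 ≤ JC κ u (omw w (κ - 2 + dl)) (bu s) a b (rotL L (-(2 * π * j / K))) := by
          rw [ha, hb, JC_eq (IsLog.cont hLr) cu (bu_nonneg s) hu0 hn0]
          refine mul_nonneg (by positivity) (intervalIntegral.integral_nonneg hn2 fun l _ =>
            mul_nonneg (Real.exp_pos _).le (hwn l))
        nlinarith
      have h4 := Finset.sum_le_sum h1
      rw [Finset.sum_const, Finset.card_range, nsmul_eq_mul] at h4
      calc _ ≤ Cu * (K * (2 * (2 * π * J))) := mul_le_mul_of_nonneg_left h4 hCu.le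
        _ = _ := by ring
    rw [JJβ, JDβ] at MIβ
    have hlogb : -Real.log b = n + 2 := by rw [hb, Real.log_exp]; ring
    rw [hlogb, ← hth] at MIβ
    -- the double integral of the term of the multiplier
    obtain ⟨P, hP⟩ : ∃ P : ℝ → ℝ, P = fun l => w l * Real.exp (-((κ - 1 + dl) * (l + 2))) *
      ∫ θ in (-π)..π, bu s θ * FC κ u L (Real.exp (-(l + 2))) θ *
        Mf (Real.exp (-(l + 2))) θ := ⟨_, rfl⟩
    have cP : Continuous P := by
      rw [hP]
      exact cont_PC κ u _ cw cu hLc cMf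
    have hRM : RR a b (fun x θ => omw w (κ - 2 + dl) x * bu s θ * FC κ u L x θ *
        MC κ dl u W0 (Mh β) β x θ) = ∫ l in n..(2 * n), P l := by
      rw [ha, hb, hP]
      exact RMC_eq (Mg := fun x θ => MC κ dl u W0 (Mh β) β x θ) hn0 usupp
        (fun x θ h1 h2 h3 => Mf_eq x θ (by rw [ha]; exact h1) (by rw [hb]; exact h2)
          (h3.trans hs1))
    rw [hRM] at MIβ
    -- level by level
    have hlev : ∀ l ∈ Icc n (2 * n), Real.exp (g l) * w l * g l ≤
        Real.exp (g l) * w l * (|CE| + C + ε * (l + 2) + C₀ * (l - n)) +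
          (2 * π)⁻¹ * P l := by
      intro l hl
      obtain ⟨x, hx⟩ : ∃ x, x = Real.exp (-(l + 2)) := ⟨_, rfl⟩
      have hx0 : 0 < x := by rw [hx]; exact Real.exp_pos _
      have hxa : a ≤ x := by
        rw [ha, hx]
        exact Real.exp_le_exp.2 (by linarith [hl.2])
      have hxb : x ≤ b := by
        rw [hb, hx]
        exact Real.exp_le_exp.2 (by linarith [hl.1])
      have hlx : -Real.log x = l + 2 := by rw [hx, Real.log_exp]; ring
      have hm0 : 0 < mmC κ u (bu s) L (l + 2) := mmC_pos hLc cu (bu_nonneg s) hu0 _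
      have hmeq : mmC κ u (bu s) L (l + 2) =
          (2 * π)⁻¹ * ∫ θ in (-π)..π, bu s θ * FC κ u L x θ := by
        rw [hx]; rfl
      have hE := EN κ u β L R (wf G β) (bu s) x hβ hL (hG β R hβ) cu (bu_nonneg s)
        (bu_le_one hs0 hs1) (bu_per s) hx0 (by linarith [hxb.trans WT.b1]) _ hmeq hm0
      have cMx : Continuous (Mf x) := cMf.comp (Continuous.prodMk_right x)
      have hL2' := levelC (dl := dl) (ε := ε) (s := s) (n := n + 2) (C := C) (C₀ := C₀)
        (CE := CE) hLc hκ (hG β R hβ) cu (bu_nonneg s) usupp hx0 (hxb.trans WT.b1) cMx hmeq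
        hm0 hE
        (fun θ hθ => by
          rw [Mf_eq x θ hxa hxb (hθ.trans hs1)]
          exact PT β L R hβ hL x θ hx0 (hb ▸ hxb) hθ)
      rw [hlx] at hL2'
      have hgl : g l = Real.log (mmC κ u (bu s) L (l + 2)) - (κ - 1 + dl) * (l + 2) := by
        rw [hg]; rfl
      have heg : Real.exp (g l) = mmC κ u (bu s) L (l + 2) *
          Real.exp (-((κ - 1 + dl) * (l + 2))) := by
        rw [hg]; exact exp_GGC hm0
      obtain ⟨m, hmdef⟩ : ∃ m, m = mmC κ u (bu s) L (l + 2) := ⟨_, rfl⟩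
      rw [← hmdef] at hL2' hm0 hgl heg
      obtain ⟨I0, hI0⟩ : ∃ I0, I0 = ∫ θ in (-π)..π, bu s θ * FC κ u L x θ *
        Mf x θ := ⟨_, rfl⟩
      rw [← hI0] at hL2'
      have hL2 : m * g l ≤ m * (|CE| + C + ε * (l + 2) + C₀ * (l - n)) + (2 * π)⁻¹ * I0 := by
        have h1 := mul_le_mul_of_nonneg_left (le_abs_self CE) hm0.le
        rw [hgl]
        nlinarith [hL2', h1]
      obtain ⟨E, hEd⟩ : ∃ E, E = w l * Real.exp (-((κ - 1 + dl) * (l + 2))) := ⟨_, rfl⟩
      have hE0 : 0 ≤ E := by rw [hEd]; exact mul_nonneg (hwn l) (Real.exp_pos _).le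
      have hPl : P l = E * I0 := by
        rw [hP, hEd, hI0, hx]
      have heE : Real.exp (g l) * w l = m * E := by
        rw [heg, hEd]; ring
      rw [hPl, heE]
      have h2 := mul_le_mul_of_nonneg_left hL2 hE0
      calc m * E * g l = E * (m * g l) := by ring
        _ ≤ E * (m * (|CE| + C + ε * (l + 2) + C₀ * (l - n)) + (2 * π)⁻¹ * I0) := h2
        _ = _ := by ring
    have hint1 : ∫ l in n..(2 * n), Real.exp (g l) * w l * g l ≤
        ∫ l in n..(2 * n), (Real.exp (g l) * w l * (|CE| + C + ε * (l + 2) + C₀ * (l - n)) +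
          (2 * π)⁻¹ * P l) := by
      refine intervalIntegral.integral_mono_on hn2 ?_ ?_ hlev
      · exact ((ceg.mul cw).mul cg).intervalIntegrable _ _
      · refine Continuous.intervalIntegrable ?_ _ _
        exact ((ceg.mul cw).mul (by fun_prop)).add (continuous_const.mul cP)
    have cA : Continuous fun l => Real.exp (g l) * w l *
        (|CE| + C + ε * (l + 2) + C₀ * (l - n)) := (ceg.mul cw).mul (by fun_prop)
    have cJ : Continuous fun l => Real.exp (g l) * w l := ceg.mul cw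
    have cP2 : Continuous fun l => (2 * π)⁻¹ * P l := continuous_const.mul cP
    have hadd : ∫ l in n..(2 * n), (Real.exp (g l) * w l *
        (|CE| + C + ε * (l + 2) + C₀ * (l - n)) + (2 * π)⁻¹ * P l) =
        (∫ l in n..(2 * n), Real.exp (g l) * w l * (|CE| + C + ε * (l + 2) + C₀ * (l - n))) +
          (2 * π)⁻¹ * ∫ l in n..(2 * n), P l := by
      rw [intervalIntegral.integral_add (cA.intervalIntegrable _ _)
        (cP2.intervalIntegrable _ _), intervalIntegral.integral_const_mul]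
    rw [hadd] at hint1
    have hPb : (2 * π)⁻¹ * ∫ l in n..(2 * n), P l ≤
        Q * J + th * (n + 2 + C1) * D + η := by
      have h1 : (∫ l in n..(2 * n), P l) ≤ C1 * (2 * π * J) + th * (n + 2 + C1) * (2 * π * D) +
          C1 * (Cu * (K * 2) * (2 * π * J)) + C1 * η' :=
        MIβ.trans (by
          have := mul_le_mul_of_nonneg_left JU2 hC1
          linarith)
      have h2 := mul_le_mul_of_nonneg_left h1 (by positivity : 0 ≤ (2 * π)⁻¹)
      have h3 : (2 * π)⁻¹ * (C1 * (2 * π * J) + th * (n + 2 + C1) * (2 * π * D) +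
          C1 * (Cu * (K * 2) * (2 * π * J)) + C1 * η') =
          Q * J + th * (n + 2 + C1) * D + (2 * π)⁻¹ * (C1 * η') := by
        rw [hQ]
        field_simp
        ring
      have h4 : (2 * π)⁻¹ * (C1 * η') ≤ 1 * η := by
        have h5 : (2 * π)⁻¹ ≤ 1 := by
          apply inv_le_one_of_one_le₀
          have := Real.pi_gt_three
          linarith
        exact mul_le_mul h5 hη'3 (by positivity) (by norm_num)
      rw [h3] at h2
      linarith
    have hfin : (∫ l in n..(2 * n), Real.exp (g l) * w l *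
        (|CE| + C + ε * (l + 2) + C₀ * (l - n))) + Q * J ≤
        ∫ l in n..(2 * n), Real.exp (g l) * w l * (Cf + ε * n + (C₀ + 1) * (l - n)) := by
      have cJ2 : Continuous fun l => Q * (Real.exp (g l) * w l) := continuous_const.mul cJ
      rw [hJ, ← intervalIntegral.integral_const_mul, ← intervalIntegral.integral_add
        (cA.intervalIntegrable _ _) (cJ2.intervalIntegrable _ _)]
      refine intervalIntegral.integral_mono_on hn2 ?_ ?_ ?_
      · exact (cA.add cJ2).intervalIntegrable _ _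
      · exact ((ceg.mul cw).mul (by fun_prop)).intervalIntegrable _ _
      · intro l hl
        have h1 : 0 ≤ Real.exp (g l) * w l := mul_nonneg (Real.exp_pos _).le (hwn l)
        have h2 : |CE| + C + ε * (l + 2) + C₀ * (l - n) + Q ≤
            Cf + ε * n + (C₀ + 1) * (l - n) := by
          have h3 : ε * (l - n) ≤ 1 * (l - n) :=
            mul_le_mul_of_nonneg_right hε1 (by linarith [hl.1])
          have h4 : 0 ≤ th * (2 + C1) := by positivity
          rw [hCf]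
          nlinarith
        have h3 := mul_le_mul_of_nonneg_left h2 h1
        linarith
    have hthn : th * (n + 2 + C1) * D ≤ (th * n + Cf) * D := by
      refine mul_le_mul_of_nonneg_right ?_ hD0
      have h1 : th * (2 + C1) ≤ Cf := by
        rw [hCf]
        have : 0 ≤ |CE| + C + 2 * ε + Q := by positivity
        linarith
      nlinarith
    linarith

end Pool.Agent.Helper52.CKC
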