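import Pool.Agent.Helper52.CKC.AsmBC
set_option autoImplicit false
open Complex MeasureTheory Metric Set
open scoped Real ComplexConjugate ContDiff

/-! Project CKC: assembly, complex exponents. -/

namespace Pool.Agent.Helper52.CKC

open Pool.Agent.Helper39.Area Pool.Agent.Helper52.EK Pool.Agent.Helper52.CK
open Pool.Agent.Helper68.EKC Pool.Agent.Helper97.CKC Pool.Agent.Helper9.EK

/-- the mean over the whole circle is dominated by the localised means of the rotations -/
theorem full_leC {κ : ℝ} {u : ℂ} {v : ℝ → ℝ} (cv : Continuous v)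
    (vp : Function.Periodic v (2 * π))
    {K : ℕ} {Cu B l : ℝ} (hCu : 0 ≤ Cu)
    (cov : ∀ θ, 1 ≤ Cu * ∑ j ∈ Finset.range K, v (θ + 2 * π * j / K))
    {β L : ℂ → ℂ} {R : ℝ} (h : ExtR β R) (hL : IsLog β L)
    (hB : ∀ γ L' : ℂ → ℂ, ExtR γ R → IsLog γ L' → mmC κ u v L' l ≤ B) :
    (2 * π)⁻¹ * ∫ θ in (-π)..π, FC κ u L (Real.exp (-l)) θ ≤ Cu * K * B := by
  have hpi := Real.pi_pos
  have hx := Real.exp_pos (-l)
  have cF := FC_cont_th κ u hL.cont hx
  have h1 : ∫ θ in (-π)..π, FC κ u L (Real.exp (-l)) θ ≤ ∫ θ in (-π)..π,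
      Cu * ∑ j ∈ Finset.range K, v (θ + 2 * π * j / K) * FC κ u L (Real.exp (-l)) θ := by
    refine intervalIntegral.integral_mono_on (by linarith) (cF.intervalIntegrable _ _) ?_ ?_
    · refine Continuous.intervalIntegrable ?_ _ _
      exact continuous_const.mul (continuous_finsetSum _ fun j _ =>
        (cv.comp (by fun_prop)).mul cF)
    · intro θ _
      rw [← Finset.sum_mul, ← mul_assoc]
      exact le_mul_of_one_le_left (FC_pos κ u L _ θ).le (cov θ)
  rw [intervalIntegral.integral_const_mul, intervalIntegral.integral_finsetSum] at h1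
  · have h2 : ∀ j ∈ Finset.range K,
        ∫ θ in (-π)..π, v (θ + 2 * π * j / K) * FC κ u L (Real.exp (-l)) θ ≤ 2 * π * B := by
      intro j _
      rw [rot_intC vp, two_pi_mmC]
      exact mul_le_mul_of_nonneg_left (hB _ _ (rot_ExtR h _) (rot_IsLog hL _)) (by positivity)
    have h3 := Finset.sum_le_sum h2
    rw [Finset.sum_const, Finset.card_range, nsmul_eq_mul] at h3
    have h4 := h1.trans (mul_le_mul_of_nonneg_left h3 hCu)
    have h5 := mul_le_mul_of_nonneg_left h4 (by positivity : 0 ≤ (2 * π)⁻¹)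
    refine h5.trans (le_of_eq ?_)
    field_simp
  · intro j _
    exact Continuous.intervalIntegrable ((cv.comp (by fun_prop)).mul cF) _ _

/-- **Assembly**: the exponent of the circle means. -/
theorem asmC {κ dl Mb : ℝ} {u : ℂ} (hu : ‖u‖ = 1) (hκ : 1 ≤ κ) (hdl : 0 ≤ dl) (hMb : 0 ≤ Mb)
    (hMb2 : Mb < 2 * κ)
    {G : ℂ → ℂ} {Mh : (ℂ → ℂ) → ℂ → ℂ}
    (hG : ∀ (β : ℂ → ℂ) (R : ℝ), ExtR β R → ContinuousOn (wf G β) {z | 0 < ‖z‖ ∧ ‖z‖ < 1})
    (hMc : ∀ (β : ℂ → ℂ) (R : ℝ), ExtR β R → ContinuousOn (Mh β) {z | 0 < ‖z‖ ∧ ‖z‖ < 1})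
    (hM : ∀ β z, ‖Mh β z‖ ≤ Mb) (near : NearC κ u) (mint : MIntC κ dl u)
    (mcont : MContC κ dl u) (ent : EntC) (pt : PTC κ dl u G Mh) :
    ∀ e : ℝ, 0 < e → ∃ C a₀ : ℝ, a₀ < 1 ∧ ∀ (β L : ℂ → ℂ) (R a : ℝ), ExtR β R → IsLog β L →
      a₀ < a → a < 1 →
      (2 * π)⁻¹ * (∫ α in (0:ℝ)..(2 * π),
        Real.exp (-(κ * (conj u * L (a * Complex.exp (α * I))).re))) ≤
        C * (1 - a ^ 2) ^ (-(κ - 1 + dl + e)) := by
  intro e he
  have hpi := Real.pi_pos
  have lip := lipC (κ := κ) (by linarith) hu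
  obtain ⟨C₀, hC₀, pt⟩ := pt
  have hth0 : 0 ≤ Mb / (2 * κ) := by positivity
  have hth1 : Mb / (2 * κ) < 1 := by
    rw [div_lt_one (by linarith)]
    exact hMb2
  obtain ⟨ε₁, hε₁, EX⟩ := Pool.Agent.Helper96.CK.exp_lemma3 (C₀ := C₀ + 1) hth0 hth1
    (by linarith) e he
  obtain ⟨ε, hε⟩ : ∃ ε, ε = min ε₁ 1 := ⟨_, rfl⟩
  have hε0 : 0 < ε := by rw [hε]; exact lt_min hε₁ one_pos
  have hε1 : ε ≤ 1 := by rw [hε]; exact min_le_right _ _
  have hε2 : ε ≤ ε₁ := by rw [hε]; exact min_le_left _ _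
  obtain ⟨s, C, hs0, hs1, hC, pt⟩ := pt ε hε0
  have hwin := windowC hκ hMb hG hMc hM near mint mcont ent hC₀ hε0 hε1 hs0 hs1 hC pt
  obtain ⟨A, hA, lip⟩ := lip
  have cu : Continuous (bu s) := bu_cont s
  have hu0 : 0 < bu s 0 := bu_pos_zero hs0 hs1
  -- `WindowAt` for `ε₁`
  have hwin2 : Pool.Agent.Helper96.CK.WindowAt (fun i : Fam => GGC κ dl u (bu s) i.1.2)
      (Mb / (2 * κ)) (C₀ + 1) ε₁ := by
    obtain ⟨C₁, hC₁, H⟩ := hwin
    refine ⟨C₁, hC₁, fun n hn w hw hwn hw0 hwp η hη => ?_⟩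
    obtain ⟨i, hi1, hi2⟩ := H n hn w hw hwn hw0 hwp η hη
    refine ⟨i, hi1, hi2.trans ?_⟩
    obtain ⟨⟨β, L⟩, R, hβ, hL⟩ := i
    have cg : Continuous (GGC κ dl u (bu s) L) := GGC_cont (IsLog.cont hL) cu (bu_nonneg s) hu0
    have ceg : Continuous fun l => Real.exp (GGC κ dl u (bu s) L l) :=
      Real.continuous_exp.comp cg
    have cw : Continuous w := hw.continuous
    have hle : ∫ l in n..(2 * n), Real.exp (GGC κ dl u (bu s) L l) * w l *
        (C₁ + ε * n + (C₀ + 1) * (l - n)) ≤ ∫ l in n..(2 * n),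
          Real.exp (GGC κ dl u (bu s) L l) * w l * (C₁ + ε₁ * n + (C₀ + 1) * (l - n)) := by
      refine intervalIntegral.integral_mono_on (by linarith) ?_ ?_ ?_
      · exact ((ceg.mul cw).mul (by fun_prop)).intervalIntegrable _ _
      · exact ((ceg.mul cw).mul (by fun_prop)).intervalIntegrable _ _
      · intro l _
        refine mul_le_mul_of_nonneg_left ?_ (mul_nonneg (Real.exp_pos _).le (hwn l))
        have : ε * n ≤ ε₁ * n := mul_le_mul_of_nonneg_right hε2 (by linarith)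
        linarith
    have hle2 := add_le_add_left (add_le_add_left hle
      ((Mb / (2 * κ) * n + C₁) * ∫ l in n..(2 * n), Real.exp (GGC κ dl u (bu s) L l) *
        |deriv w l|)) η
    exact hle2
  -- Lipschitz
  have hm2 : ∀ (β L : ℂ → ℂ) (R : ℝ), ExtR β R → IsLog β L → ∀ l l' : ℝ, 2 ≤ l → 2 ≤ l' →
      mmC κ u (bu s) L l ≤ Real.exp (A * |l - l'|) * mmC κ u (bu s) L l' := by
    intro β L R hβ hL l l' hl hl'
    unfold mmC
    have h1 : ∫ θ in (-π)..π, bu s θ * FC κ u L (Real.exp (-l)) θ ≤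
        ∫ θ in (-π)..π, Real.exp (A * |l - l'|) * (bu s θ * FC κ u L (Real.exp (-l')) θ) := by
      refine intervalIntegral.integral_mono_on (by linarith) ?_ ?_ ?_
      · exact (cu.mul (FC_cont_th κ u hL.cont (Real.exp_pos _))).intervalIntegrable _ _
      · exact (continuous_const.mul (cu.mul (FC_cont_th κ u hL.cont
          (Real.exp_pos _)))).intervalIntegrable _ _
      · intro θ _
        have h2 := mul_le_mul_of_nonneg_left ((lip β L R hβ hL).1 l l' θ hl hl')
          (bu_nonneg s θ)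
        calc _ ≤ _ := h2
          _ = _ := by ring
    rw [intervalIntegral.integral_const_mul] at h1
    calc _ ≤ (2 * π)⁻¹ * (Real.exp (A * |l - l'|) *
          ∫ θ in (-π)..π, bu s θ * FC κ u L (Real.exp (-l')) θ) :=
          mul_le_mul_of_nonneg_left h1 (by positivity)
      _ = _ := by ring
  have hlog : ∀ (β L : ℂ → ℂ) (R : ℝ), ExtR β R → IsLog β L → ∀ l l' : ℝ, 2 ≤ l → 2 ≤ l' →
      Real.log (mmC κ u (bu s) L l) - Real.log (mmC κ u (bu s) L l') ≤ A * |l - l'| := by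
    intro β L R hβ hL l l' hl hl'
    have hp := mmC_pos (κ := κ) (u := u) hL.cont cu (bu_nonneg s) hu0 l
    have hp' := mmC_pos (κ := κ) (u := u) hL.cont cu (bu_nonneg s) hu0 l'
    have h1 := Real.log_le_log hp (hm2 β L R hβ hL l l' hl hl')
    rw [Real.log_mul (Real.exp_pos _).ne' hp'.ne', Real.log_exp] at h1
    linarith
  obtain ⟨A', hA'⟩ : ∃ A', A' = A + (κ - 1 + dl) := ⟨_, rfl⟩
  have hA'0 : 0 ≤ A' := by rw [hA']; linarith
  obtain ⟨K, hK⟩ := EX (ι := Fam)
    (G := fun i => GGC κ dl u (bu s) i.1.2) (A := A') hA'0 (by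
      rintro ⟨⟨β, L⟩, R, hβ, hL⟩
      have hLc := IsLog.cont hL
      have hp := mmC_pos (κ := κ) (u := u) hLc cu (bu_nonneg s) hu0 2
      have h1 : mmC κ u (bu s) L 2 ≤ Real.exp A := by
        unfold mmC
        have h2 : ∫ θ in (-π)..π, bu s θ * FC κ u L (Real.exp (-2)) θ ≤
            ∫ _θ in (-π)..π, Real.exp A := by
          refine intervalIntegral.integral_mono_on (by linarith) ?_
            intervalIntegrable_const ?_
          · exact (cu.mul (FC_cont_th κ u hLc (Real.exp_pos _))).intervalIntegrable _ _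
          · intro θ _
            have h3 := (lip β L R hβ hL).2 θ
            have h4 := (FC_pos κ u L (Real.exp (-2)) θ).le
            calc _ ≤ 1 * FC κ u L (Real.exp (-2)) θ :=
                  mul_le_mul_of_nonneg_right (bu_le_one hs0 hs1 θ) h4
              _ ≤ _ := by rw [one_mul]; exact h3
        rw [intervalIntegral.integral_const, smul_eq_mul] at h2
        have h5 := mul_le_mul_of_nonneg_left h2 (by positivity : 0 ≤ (2 * π)⁻¹)
        refine h5.trans (le_of_eq ?_)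
        field_simp
        ring
      have h6 := Real.log_le_log hp h1
      rw [Real.log_exp] at h6
      have h7 : GGC κ dl u (bu s) L 0 =
          Real.log (mmC κ u (bu s) L 2) - (κ - 1 + dl) * 2 := by
        unfold GGC
        norm_num
      show GGC κ dl u (bu s) L 0 ≤ A'
      rw [h7, hA']
      nlinarith) (by
      rintro ⟨⟨β, L⟩, R, hβ, hL⟩ l l' hl hl'
      show |GGC κ dl u (bu s) L l - GGC κ dl u (bu s) L l'| ≤ A' * |l - l'|
      have h1 := hlog β L R hβ hL (l + 2) (l' + 2) (by linarith) (by linarith)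
      have h2 := hlog β L R hβ hL (l' + 2) (l + 2) (by linarith) (by linarith)
      have e1 : l + 2 - (l' + 2) = l - l' := by ring
      have e2 : l' + 2 - (l + 2) = -(l - l') := by ring
      rw [e1] at h1
      rw [e2, abs_neg] at h2
      have h3 : (κ - 1 + dl) * (l - l') ≤ (κ - 1 + dl) * |l - l'| :=
        mul_le_mul_of_nonneg_left (le_abs_self _) (by linarith)
      have h4 : (κ - 1 + dl) * (-(l - l')) ≤ (κ - 1 + dl) * |l - l'| :=
        mul_le_mul_of_nonneg_left (neg_le_abs _) (by linarith)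
      unfold GGC
      rw [hA', abs_le]
      constructor <;> linarith) hwin2
  -- conclusion
  obtain ⟨Kn, Cu, hKn, hCu, cov, -⟩ := bu_cover hs0 hs1
  obtain ⟨S, hS⟩ : ∃ S, S = κ - 1 + dl + e := ⟨_, rfl⟩
  have hS0 : 0 < S := by rw [hS]; linarith
  refine ⟨Cu * Kn * Real.exp K * 2 ^ S, Real.exp (-Real.exp (-2)), ?_, ?_⟩
  · rw [Real.exp_lt_one_iff]
    have := Real.exp_pos (-2)
    linarith
  intro β L R a hβ hL ha0 ha1
  have hapos : 0 < a := (Real.exp_pos _).trans ha0
  obtain ⟨x, hx⟩ : ∃ x, x = -Real.log a := ⟨_, rfl⟩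
  have hx0 : 0 < x := by
    rw [hx]
    have := Real.log_neg hapos ha1
    linarith
  have hx2 : x ≤ Real.exp (-2) := by
    have := Real.log_le_log (Real.exp_pos _) ha0.le
    rw [Real.log_exp] at this
    rw [hx]
    linarith
  obtain ⟨l, hl⟩ : ∃ l, l = -Real.log x := ⟨_, rfl⟩
  have hl2 : 2 ≤ l := by
    have := Real.log_le_log hx0 hx2
    rw [Real.log_exp] at this
    rw [hl]
    linarith
  have hxl : x = Real.exp (-l) := by rw [hl, neg_neg, Real.exp_log hx0]
  have hxa : Real.exp (-x) = a := by rw [hx, neg_neg, Real.exp_log hapos]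
  have hB : ∀ γ L' : ℂ → ℂ, ExtR γ R → IsLog γ L' →
      mmC κ u (bu s) L' l ≤ Real.exp K * Real.exp (S * l) := by
    intro γ L' hγ hL'
    have h1 := hK ⟨(γ, L'), R, hγ, hL'⟩ (l - 2) (by linarith)
    have h2 : GGC κ dl u (bu s) L' (l - 2) ≤ K + e * (l - 2) := h1
    have e1 : l - 2 + 2 = l := by ring
    unfold GGC at h2
    rw [e1] at h2
    have hp := mmC_pos (κ := κ) (u := u) hL'.cont cu (bu_nonneg s) hu0 l
    rw [← Real.exp_add]
    calc mmC κ u (bu s) L' l = Real.exp (Real.log (mmC κ u (bu s) L' l)) :=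
          (Real.exp_log hp).symm
      _ ≤ _ := Real.exp_le_exp.2 (by rw [hS]; nlinarith)
  have hfull := full_leC cu (bu_per s) hCu.le cov hβ hL hB
  -- the integral over `0..2π`
  have hN : ∀ α : ℝ, Real.exp (-(κ * (conj u * L (a * Complex.exp (α * I))).re)) =
      FC κ u L (Real.exp (-l)) α := by
    intro α
    unfold FC
    rw [← hxl]
    unfold ep
    rw [Complex.exp_add, ← Complex.ofReal_exp, hxa]
  have hper : Function.Periodic (FC κ u L (Real.exp (-l))) (2 * π) := FC_per κ u L _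
  have hshift := hper.intervalIntegral_add_eq 0 (-π)
  rw [zero_add, show -π + 2 * π = π by ring] at hshift
  simp only [hN]
  rw [hshift]
  refine hfull.trans ?_
  have h1a : 0 < 1 - a ^ 2 := by nlinarith
  have hxge : (1 - a ^ 2) / 2 ≤ x := by
    have := Real.add_one_le_exp (-x)
    rw [hxa] at this
    nlinarith
  have h9 : Real.exp (S * l) ≤ 2 ^ S * (1 - a ^ 2) ^ (-S) := by
    have e1 : Real.exp (S * l) = x ^ (-S) := by
      rw [Real.rpow_def_of_pos hx0, hl]
      congr 1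
      ring
    rw [e1]
    calc x ^ (-S) ≤ ((1 - a ^ 2) / 2) ^ (-S) :=
          Real.rpow_le_rpow_of_nonpos (by positivity) hxge (by linarith)
      _ = _ := by
          rw [Real.div_rpow h1a.le (by norm_num), Real.rpow_neg (by norm_num : (0:ℝ) ≤ 2),
            div_inv_eq_mul, mul_comm]
  rw [← hS]
  calc Cu * Kn * (Real.exp K * Real.exp (S * l)) = Cu * Kn * Real.exp K * Real.exp (S * l) := by
        ring
    _ ≤ Cu * Kn * Real.exp K * (2 ^ S * (1 - a ^ 2) ^ (-S)) :=
        mul_le_mul_of_nonneg_left h9 (by positivity)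
    _ = _ := by ring

end Pool.Agent.Helper52.CKC
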