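import Pool.Agent.Helper52.CKC.AsmC
import Pool.Agent.Helper5.CK.Var
import Pool.Agent.Helper99.CKC.NearC
import Pool.Agent.Helper14.CK.MintC
import Pool.Agent.Helper58.CKC.EntC
import Pool.Agent.Helper58.CKC.FinC
import Pool.Agent.Helper70.EK.WfCont
set_option autoImplicit false
open Complex MeasureTheory Metric Set
open scoped Real ComplexConjugate

/-! Project CKC: everything plugged in except the inequality of one target. -/

namespace Pool.Agent.Helper52.CKC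

open Pool.Agent.Helper39.Area Pool.Agent.Helper52.EK Pool.Agent.Helper52.CK
open Pool.Agent.Helper97.CKC

/-- from the inequality of one target to the class Σ, all `t` with `|t| ≥ κ` in the direction -/
theorem main_of_ptC {κ dl Mb Lg : ℝ} {u : ℂ} (hu : ‖u‖ = 1) (hκ : 1 ≤ κ) (hdl : 0 ≤ dl)
    (hMb : 0 ≤ Mb) (hMb2 : Mb < 2 * κ) {G : ℂ → ℂ} {Mh : (ℂ → ℂ) → ℂ → ℂ} (hG : GLip G Lg)
    (hMc : ∀ (β : ℂ → ℂ) (R : ℝ), ExtR β R → ContinuousOn (Mh β) {z | 0 < ‖z‖ ∧ ‖z‖ < 1})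
    (hM : ∀ β z, ‖Mh β z‖ ≤ Mb) (pt : PTC κ dl u G Mh) {t : ℂ} (ht : κ ≤ ‖t‖)
    (htu : t = -((‖t‖ : ℂ) * conj u)) {e : ℝ} (he : 0 < e) :
    Pool.Agent.Helper58.CKC.SigC t (‖t‖ - 1 + dl + e) :=
  Pool.Agent.Helper58.CKC.fin_c hu hκ hdl
    (asmC hu hκ hdl hMb hMb2 (fun _ _ h => Pool.Agent.Helper70.EK.wf_cont hG h.toExt) hMc hM
      (Pool.Agent.Helper99.CKC.near_c Pool.Agent.Helper5.CK.variation κ u)
      (Pool.Agent.Helper14.CK.mint_c hu (by linarith) hdl)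
      (fun _ _ ha hab _ _ _ hR _ _ _ hW hM hMb =>
        Pool.Agent.Helper14.CK.MC_cont hW hM hMb hR ha hab.le)
      Pool.Agent.Helper58.CKC.ent_c pt) ht htu he

end Pool.Agent.Helper52.CKC
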