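import Pool.Agent.Helper52.CK.AsmA
import Pool.Agent.Helper97.CKC.Defs
import Pool.Agent.Helper77.CK.Lip
set_option autoImplicit false
open Complex MeasureTheory Metric Set
open scoped Real ComplexConjugate ContDiff

/-! Project CKC: level functions, rotation, Lipschitz bound, the inequality of one level. -/

namespace Pool.Agent.Helper52.CKC

open Pool.Agent.Helper39.Area Pool.Agent.Helper52.EK Pool.Agent.Helper52.CK
open Pool.Agent.Helper68.EKC Pool.Agent.Helper97.CKC Pool.Agent.Helper9.EK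

/-- localised mean at depth `l` -/
noncomputable def mmC (κ : ℝ) (u : ℂ) (v : ℝ → ℝ) (L : ℂ → ℂ) (l : ℝ) : ℝ :=
  (2 * π)⁻¹ * ∫ θ in (-π)..π, v θ * FC κ u L (Real.exp (-l)) θ

/-- the level function -/
noncomputable def GGC (κ dl : ℝ) (u : ℂ) (v : ℝ → ℝ) (L : ℂ → ℂ) (l : ℝ) : ℝ :=
  Real.log (mmC κ u v L (l + 2)) - (κ - 1 + dl) * (l + 2)

theorem exp_GGC {κ dl : ℝ} {u : ℂ} {v : ℝ → ℝ} {L : ℂ → ℂ} {l : ℝ} (h : 0 < mmC κ u v L (l + 2)) :
    Real.exp (GGC κ dl u v L l) = mmC κ u v L (l + 2) * Real.exp (-((κ - 1 + dl) * (l + 2))) := by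
  unfold GGC
  rw [sub_eq_add_neg, Real.exp_add, Real.exp_log h]

theorem ep_mem {x : ℝ} (hx : 0 < x) (θ : ℝ) : ep (-x) θ ∈ ball (0:ℂ) 1 := by
  rw [mem_ball_zero_iff, norm_ep, Real.exp_lt_one_iff]
  linarith

theorem FC_pos (κ : ℝ) (u : ℂ) (L : ℂ → ℂ) (x θ : ℝ) : 0 < FC κ u L x θ := Real.exp_pos _

theorem FC_comp_cont (κ : ℝ) (u : ℂ) {L : ℂ → ℂ} (hL : ContinuousOn L (ball 0 1)) {X : Type*}
    [TopologicalSpace X] {g k : X → ℝ} (hg : Continuous g) (hk : Continuous k)
    (hpos : ∀ q, 0 < g q) : Continuous (fun q => FC κ u L (g q) (k q)) := by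
  have hc : Continuous (fun q => ep (-(g q)) (k q)) := by
    unfold ep
    fun_prop
  have h1 : Continuous (fun q => L (ep (-(g q)) (k q))) :=
    hL.comp_continuous hc fun q => ep_mem (hpos q) _
  unfold FC
  exact Real.continuous_exp.comp
    (continuous_const.mul (Complex.continuous_re.comp (continuous_const.mul h1))).neg

theorem FC_cont (κ : ℝ) (u : ℂ) {L : ℂ → ℂ} (hL : ContinuousOn L (ball 0 1)) {a : ℝ}
    (ha : 0 < a) : Continuous (fun q : ℝ × ℝ => FC κ u L (max a q.1) q.2) :=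
  FC_comp_cont κ u hL (by fun_prop) continuous_snd fun _ => lt_max_of_lt_left ha

theorem FC_cont_th (κ : ℝ) (u : ℂ) {L : ℂ → ℂ} (hL : ContinuousOn L (ball 0 1)) {x : ℝ}
    (hx : 0 < x) : Continuous (FC κ u L x) :=
  FC_comp_cont κ u hL continuous_const continuous_id fun _ => hx

/-- rotation of the logarithm -/
noncomputable def rotL (L : ℂ → ℂ) (α : ℝ) (z : ℂ) : ℂ := L (Complex.exp (α * I) * z)

theorem rot_IsLog {β L : ℂ → ℂ} (hL : IsLog β L) (α : ℝ) : IsLog (rotβ β α) (rotL L α) where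
  cont := by
    have h1 : ContinuousOn (fun z : ℂ => Complex.exp (α * I) * z) (ball 0 1) := by fun_prop
    exact hL.cont.comp h1 fun z hz => mem_ball_rot hz
  zero := by
    unfold rotL
    rw [mul_zero]
    exact hL.zero
  exp := by
    intro z hz
    unfold rotL
    rw [hL.exp _ (mem_ball_rot hz), rot_N']

theorem rot_FC (κ : ℝ) (u : ℂ) (L : ℂ → ℂ) (α x θ : ℝ) :
    FC κ u (rotL L α) x θ = FC κ u L x (θ + α) := by
  unfold FC rotL
  rw [ep_add]

theorem FC_per (κ : ℝ) (u : ℂ) (L : ℂ → ℂ) (x : ℝ) : Function.Periodic (FC κ u L x) (2 * π) := by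
  intro θ
  unfold FC
  rw [ep_two_pi]

/-- rotation of the localised mean -/
theorem rot_intC {κ : ℝ} {u : ℂ} {v : ℝ → ℝ} (vp : Function.Periodic v (2 * π)) (L : ℂ → ℂ)
    (x α : ℝ) :
    ∫ θ in (-π)..π, v (θ + α) * FC κ u L x θ =
      ∫ θ in (-π)..π, v θ * FC κ u (rotL L (-α)) x θ := by
  have h1 : ∀ θ, v (θ + α) * FC κ u L x θ =
      (fun t => v t * FC κ u (rotL L (-α)) x t) (θ + α) := by
    intro θ
    simp only
    rw [rot_FC]
    congr 2
    ring
  simp only [h1]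
  rw [intervalIntegral.integral_comp_add_right (fun t => v t * FC κ u (rotL L (-α)) x t)]
  have hper : Function.Periodic (fun t => v t * FC κ u (rotL L (-α)) x t) (2 * π) := by
    intro t
    simp only
    rw [vp t, FC_per]
  have := hper.intervalIntegral_add_eq (-π + α) (-π)
  have e1 : -π + α + 2 * π = π + α := by ring
  have e2 : -π + 2 * π = π := by ring
  rw [e1, e2] at this
  exact this

section means

variable {κ dl : ℝ} {u : ℂ} {v : ℝ → ℝ} {L : ℂ → ℂ}

theorem mmC_cont (hL : ContinuousOn L (ball 0 1)) (cv : Continuous v) :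
    Continuous (mmC κ u v L) := by
  unfold mmC
  refine continuous_const.mul ?_
  refine intervalIntegral.continuous_parametric_intervalIntegral_of_continuous'
    (f := fun l θ => v θ * FC κ u L (Real.exp (-l)) θ) ?_ _ _
  have h1 := FC_comp_cont κ u hL (g := fun q : ℝ × ℝ => Real.exp (-q.1)) (k := fun q => q.2)
    (by fun_prop) (by fun_prop) (fun q => Real.exp_pos _)
  exact (cv.comp continuous_snd).mul h1

theorem int_posC (hL : ContinuousOn L (ball 0 1)) (cv : Continuous v) (v0 : ∀ θ, 0 ≤ v θ)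
    (hv : 0 < v 0) {x : ℝ} (hx : 0 < x) : 0 < ∫ θ in (-π)..π, v θ * FC κ u L x θ := by
  have hpi := Real.pi_pos
  refine intervalIntegral.integral_pos (by linarith) ?_ ?_ ?_
  · exact (cv.mul (FC_cont_th κ u hL hx)).continuousOn
  · intro θ _
    exact mul_nonneg (v0 θ) (FC_pos κ u L x θ).le
  · exact ⟨0, ⟨by linarith, hpi.le⟩, mul_pos hv (FC_pos κ u L x 0)⟩

theorem mmC_pos (hL : ContinuousOn L (ball 0 1)) (cv : Continuous v) (v0 : ∀ θ, 0 ≤ v θ)
    (hv : 0 < v 0) (l : ℝ) : 0 < mmC κ u v L l := by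
  unfold mmC
  exact mul_pos (by positivity) (int_posC hL cv v0 hv (Real.exp_pos _))

theorem GGC_cont (hL : ContinuousOn L (ball 0 1)) (cv : Continuous v) (v0 : ∀ θ, 0 ≤ v θ)
    (hv : 0 < v 0) : Continuous (GGC κ dl u v L) := by
  unfold GGC
  have h1 : Continuous fun l : ℝ => mmC κ u v L (l + 2) :=
    (mmC_cont hL cv).comp (continuous_id.add continuous_const)
  exact (h1.log fun l => (mmC_pos hL cv v0 hv _).ne').sub (by fun_prop)

end means

/-! ### the Lipschitz bound -/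

theorem hasDerivAt_IsLog {β L : ℂ → ℂ} (h : Ext β) (hL : IsLog β L) {z : ℂ}
    (hz : z ∈ ball (0:ℂ) 1) : HasDerivAt L (deriv (N β) z / N β z) z := by
  have hNd := (Pool.Agent.Helper77.CK.differentiableOn_N h).differentiableAt
    (isOpen_ball.mem_nhds hz)
  have h1 : HasDerivAt Complex.exp (Complex.exp (L z)) (L z) := Complex.hasDerivAt_exp _
  have hLc : ContinuousAt L z := hL.cont.continuousAt (isOpen_ball.mem_nhds hz)
  have h2 : (fun w => Complex.exp (L w)) =ᶠ[nhds z] N β := by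
    filter_upwards [isOpen_ball.mem_nhds hz] with w hw
    exact hL.exp w hw
  have h3 : HasDerivAt (fun w => Complex.exp (L w)) (deriv (N β) z) z :=
    hNd.hasDerivAt.congr_of_eventuallyEq h2
  have h4 := HasDerivAt.of_comp_left hLc h1 h3 (Complex.exp_ne_zero _)
  rw [hL.exp z hz] at h4
  exact h4 (Filter.Eventually.of_forall fun _ => rfl)

/-- LIP for complex exponents -/
def LipC (κ : ℝ) (u : ℂ) : Prop :=
  ∃ A : ℝ, 0 ≤ A ∧ ∀ (β L : ℂ → ℂ) (R : ℝ), ExtR β R → IsLog β L →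
    (∀ l l' θ : ℝ, 2 ≤ l → 2 ≤ l' →
      FC κ u L (Real.exp (-l)) θ ≤ Real.exp (A * |l - l'|) * FC κ u L (Real.exp (-l')) θ) ∧
    ∀ θ : ℝ, FC κ u L (Real.exp (-2)) θ ≤ Real.exp A

theorem lipC {κ : ℝ} (hκ : 0 ≤ κ) {u : ℂ} (hu : ‖u‖ = 1) : LipC κ u := by
  obtain ⟨C, hC0, hC⟩ := Pool.Agent.Helper77.CK.lip_N
  obtain ⟨r, hr⟩ : ∃ r : ℝ, r = Real.exp (-Real.exp (-2)) := ⟨_, rfl⟩
  have hr1 : r < 1 := by
    rw [hr, Real.exp_lt_one_iff]
    linarith [Real.exp_pos (-2)]
  have hr0 : 0 < r := by rw [hr]; exact Real.exp_pos _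
  obtain ⟨B, hB⟩ : ∃ B : ℝ, B = -Real.log (1 - r ^ 2) := ⟨_, rfl⟩
  have hB0 : 0 ≤ B := by
    rw [hB]
    have : Real.log (1 - r ^ 2) ≤ 0 := Real.log_nonpos (by nlinarith) (by nlinarith)
    linarith
  refine ⟨κ * C + κ * B, by positivity, ?_⟩
  intro β L R hβ hL
  constructor
  · intro l l' θ hl hl'
    -- derivative in the depth
    obtain ⟨f, hf⟩ : ∃ f : ℝ → ℝ, f = fun l => κ * (conj u * L (ep (-Real.exp (-l)) θ)).re :=
      ⟨_, rfl⟩
    have hder : ∀ l : ℝ, HasDerivAt f (κ * (conj u * ((deriv (N β) (ep (-Real.exp (-l)) θ) /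
        N β (ep (-Real.exp (-l)) θ)) * (ep (-Real.exp (-l)) θ *
          ((Real.exp (-l) : ℝ) : ℂ)))).re) l := by
      intro l
      have hz : ep (-Real.exp (-l)) θ ∈ ball (0:ℂ) 1 := ep_mem (Real.exp_pos _) θ
      have h1 : HasDerivAt (fun l : ℝ => Real.exp (-l)) (-Real.exp (-l)) l := by
        have h0 := (hasDerivAt_neg l).exp
        rw [mul_neg_one] at h0
        exact h0
      have h2 : HasDerivAt (fun l : ℝ => ((-Real.exp (-l) : ℝ) : ℂ) + (θ : ℂ) * I)
          ((Real.exp (-l) : ℝ) : ℂ) l := by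
        have h3 := h1.neg.ofReal_comp.add_const ((θ : ℂ) * I)
        simpa using h3
      have h3 : HasDerivAt (fun l : ℝ => ep (-Real.exp (-l)) θ)
          (ep (-Real.exp (-l)) θ * ((Real.exp (-l) : ℝ) : ℂ)) l := by
        unfold ep
        exact h2.cexp
      have h4 : HasDerivAt (fun l : ℝ => L (ep (-Real.exp (-l)) θ))
          ((deriv (N β) (ep (-Real.exp (-l)) θ) / N β (ep (-Real.exp (-l)) θ)) *
            (ep (-Real.exp (-l)) θ * ((Real.exp (-l) : ℝ) : ℂ))) l :=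
        (hasDerivAt_IsLog hβ.toExt hL hz).comp_of_eq l h3 rfl
      have h5 := (Complex.reCLM.hasFDerivAt.comp_hasDerivAt l (h4.const_mul (conj u))).const_mul κ
      rw [hf]
      exact h5
    have hbound : ∀ l : ℝ, 2 ≤ l → ‖κ * (conj u * ((deriv (N β) (ep (-Real.exp (-l)) θ) /
        N β (ep (-Real.exp (-l)) θ)) * (ep (-Real.exp (-l)) θ *
          ((Real.exp (-l) : ℝ) : ℂ)))).re‖ ≤ κ * C := by
      intro l hl
      have hx4 : Real.exp (-l) ≤ 1 / 4 :=
        (Real.exp_le_exp.2 (by linarith)).trans Pool.Agent.Helper77.CK.exp_neg_two_le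
      have h1 := hC β R (Real.exp (-l)) θ hβ (Real.exp_pos _) hx4
      rw [norm_mul, Real.norm_of_nonneg hκ]
      refine mul_le_mul_of_nonneg_left ?_ hκ
      rw [Real.norm_eq_abs]
      refine (Complex.abs_re_le_norm _).trans ?_
      rw [norm_mul, RCLike.norm_conj, hu, one_mul]
      refine le_trans (le_of_eq ?_) h1
      rw [norm_mul, norm_mul, norm_mul, Complex.norm_real,
        Real.norm_of_nonneg (Real.exp_pos _).le]
      ring
    have hmv : ‖f l - f l'‖ ≤ κ * C * ‖l - l'‖ := by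
      refine Convex.norm_image_sub_le_of_norm_hasDerivWithin_le (s := Ici 2)
        (fun x _ => (hder x).hasDerivWithinAt) (fun x hx => hbound x hx) (convex_Ici 2) hl' hl
    rw [Real.norm_eq_abs, Real.norm_eq_abs] at hmv
    have h6 := (abs_le.1 hmv).1
    unfold FC
    rw [← Real.exp_add]
    refine Real.exp_le_exp.2 ?_
    have h7 : 0 ≤ κ * B * |l - l'| := by positivity
    have e1 : f l = κ * (conj u * L (ep (-Real.exp (-l)) θ)).re := by rw [hf]
    have e2 : f l' = κ * (conj u * L (ep (-Real.exp (-l')) θ)).re := by rw [hf]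
    rw [← e1, ← e2]
    linarith
  · intro θ
    have hz : ep (-Real.exp (-2)) θ ∈ ball (0:ℂ) 1 := ep_mem (Real.exp_pos _) θ
    have h1 := IsLog.goluzin hβ.toExt hL hz
    rw [norm_ep, ← hr, ← hB] at h1
    unfold FC
    refine Real.exp_le_exp.2 ?_
    have h2 : -(conj u * L (ep (-Real.exp (-2)) θ)).re ≤ B := by
      have h3 := Complex.abs_re_le_norm (conj u * L (ep (-Real.exp (-2)) θ))
      rw [norm_mul, RCLike.norm_conj, hu, one_mul] at h3
      have := (abs_le.1 (h3.trans h1)).1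
      linarith
    have h3 := mul_le_mul_of_nonneg_left h2 hκ
    have h4 : 0 ≤ κ * C := by positivity
    linarith

/-! ### one level -/

/-- the inequality of one level: entropy and the inequality of the targets -/
theorem levelC {κ dl CE C C₀ ε s n x : ℝ} {u : ℂ} {L : ℂ → ℂ}
    (hL : ContinuousOn L (ball 0 1)) {w : ℂ → ℂ}
    (hκ : 1 ≤ κ) (hw : ContinuousOn w {z | 0 < ‖z‖ ∧ ‖z‖ < 1}) {v : ℝ → ℝ} (cv : Continuous v)
    (v0 : ∀ θ, 0 ≤ v θ) (vs : ∀ θ ∈ Icc (-π) π, v θ ≠ 0 → |θ| ≤ s) (hx : 0 < x)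
    (hx4 : x ≤ 1 / 4) {Mx : ℝ → ℝ} (cM : Continuous Mx) {m : ℝ}
    (hm : m = (2 * π)⁻¹ * ∫ θ in (-π)..π, v θ * FC κ u L x θ) (hm0 : 0 < m)
    (hE : m * Real.log m ≤ m * (Real.log (1 - Real.exp (-2 * x)) + CE) +
      (2 * π)⁻¹ * ∫ θ in (-π)..π, v θ * FC κ u L x θ *
        (Kf w (Complex.exp (θ * I)) (-1) (-x) - κ * (conj u * L (ep (-x) θ)).re))
    (hP : ∀ θ, |θ| ≤ s → Kf w (Complex.exp (θ * I)) (-1) (-x) ≤
      κ * (-Real.log (1 - Real.exp (-2 * x)) + (conj u * L (ep (-x) θ)).re) +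
        Mx θ + C + (dl + ε) * (-Real.log x) + C₀ * (-Real.log x - n)) :
    m * Real.log m ≤ m * ((κ - 1) * (-Real.log x) + CE + C + (dl + ε) * (-Real.log x) +
      C₀ * (-Real.log x - n)) + (2 * π)⁻¹ * ∫ θ in (-π)..π, v θ * FC κ u L x θ * Mx θ := by
  have hpi := Real.pi_pos
  have hge := one_sub_exp_ge hx hx4
  have h1e : 0 < 1 - Real.exp (-2 * x) := hx.trans_le hge
  have cF := FC_cont_th κ u hL hx
  have cK : Continuous fun θ : ℝ => Kf w (Complex.exp (θ * I)) (-1) (-x) :=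
    Pool.Agent.Helper26.EK.Kf_cont hw (by linarith) (by linarith)
  have cN : Continuous fun θ : ℝ => (conj u * L (ep (-x) θ)).re := by
    have hc : Continuous (fun q => ep (-x) q) := by
      unfold ep
      fun_prop
    have h1 : Continuous (fun q => L (ep (-x) q)) := hL.comp_continuous hc fun q => ep_mem hx _
    exact Complex.continuous_re.comp (continuous_const.mul h1)
  obtain ⟨c, hc⟩ : ∃ c : ℝ, c = -κ * Real.log (1 - Real.exp (-2 * x)) + C +
    (dl + ε) * (-Real.log x) + C₀ * (-Real.log x - n) := ⟨_, rfl⟩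
  have hint : ∫ θ in (-π)..π, v θ * FC κ u L x θ *
        (Kf w (Complex.exp (θ * I)) (-1) (-x) - κ * (conj u * L (ep (-x) θ)).re) ≤
      ∫ θ in (-π)..π, (c * (v θ * FC κ u L x θ) + v θ * FC κ u L x θ * Mx θ) := by
    refine intervalIntegral.integral_mono_on (by linarith) ?_ ?_ ?_
    · exact ((cv.mul cF).mul (cK.sub (continuous_const.mul cN))).intervalIntegrable _ _
    · exact ((continuous_const.mul (cv.mul cF)).add ((cv.mul cF).mul cM)).intervalIntegrable _ _
    · intro θ hθ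
      by_cases hv : v θ = 0
      · simp [hv]
      · have h1 := hP θ (vs θ hθ hv)
        have h2 : Kf w (Complex.exp (θ * I)) (-1) (-x) - κ * (conj u * L (ep (-x) θ)).re ≤
            c + Mx θ := by
          rw [hc]
          linarith
        have h3 : 0 ≤ v θ * FC κ u L x θ := mul_nonneg (v0 θ) (FC_pos κ u L x θ).le
        calc _ ≤ v θ * FC κ u L x θ * (c + Mx θ) := mul_le_mul_of_nonneg_left h2 h3
          _ = _ := by ring
  have hi1 : IntervalIntegrable (fun θ => c * (v θ * FC κ u L x θ)) volume (-π) π :=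
    (continuous_const.mul (cv.mul cF)).intervalIntegrable _ _
  have hi2 : IntervalIntegrable (fun θ => v θ * FC κ u L x θ * Mx θ) volume (-π) π :=
    ((cv.mul cF).mul cM).intervalIntegrable _ _
  rw [intervalIntegral.integral_add hi1 hi2, intervalIntegral.integral_const_mul] at hint
  have h4 : (2 * π)⁻¹ * ∫ θ in (-π)..π, v θ * FC κ u L x θ *
        (Kf w (Complex.exp (θ * I)) (-1) (-x) - κ * (conj u * L (ep (-x) θ)).re) ≤
      c * m + (2 * π)⁻¹ * ∫ θ in (-π)..π, v θ * FC κ u L x θ * Mx θ := by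
    refine (mul_le_mul_of_nonneg_left hint (by positivity)).trans (le_of_eq ?_)
    rw [hm]
    ring
  have h5 : Real.log x ≤ Real.log (1 - Real.exp (-2 * x)) := Real.log_le_log hx hge
  have h6 : (1 - κ) * Real.log (1 - Real.exp (-2 * x)) ≤ (κ - 1) * (-Real.log x) := by
    nlinarith
  have h7 := mul_le_mul_of_nonneg_left h6 hm0.le
  rw [hc] at h4
  nlinarith [h4, h7, hE]

end Pool.Agent.Helper52.CKC
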